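import Pool.Agent.N60.ZG.Stm

set_option autoImplicit false

/-! Project ZG (helper60), leaf ZG/APPG (helper81): application to the Goldbach recursion. -/

namespace Pool.Agent.N60.ZG

open Finset Pool.Agent.R330.GL

/-- the lemma `des` of `Results/MP_b5e119_nt/FareyLowerBound` (starting library) -/
theorem appg_des (N : ℕ) (hN : 3 ≤ N) (a : ℕ → ℤ) (ha1 : a 1 = (N : ℤ) - 2)
    (ha : ∀ n : ℕ, 2 ≤ n → a n = a (n - 1) -
        ((Int.gcd (a (n - 1)) ((N : ℤ) - (-1) ^ n * ((N : ℤ) - n)) : ℕ) : ℤ))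
    (f : ℕ) (hf : IsLeast {n : ℕ | 2 ≤ n ∧ a n = 0} f) :
    Des N f a (fun n => ((Int.gcd (a (n - 1)) (V N n) : ℕ) : ℤ)) := by
  obtain ⟨⟨hf1, haf⟩, hmin⟩ := hf
  have hmin' : ∀ k, 1 ≤ k → k < f → a k ≠ 0 := by
    intro k hk1 hk2 hk3
    rcases Nat.lt_or_ge k 2 with h | h
    · have : k = 1 := by omega
      subst this
      rw [ha1] at hk3
      omega
    · have := hmin ⟨h, hk3⟩
      omega
  have hnn : ∀ k, 1 ≤ k → k ≤ f → 0 ≤ a k := by
    intro k hk
    induction k, hk using Nat.le_induction with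
    | base => intro _; rw [ha1]; omega
    | succ k hk ih =>
      intro hkf
      have h1 := ih (by omega)
      have hpos : 0 < a k := lt_of_le_of_ne h1 (Ne.symm (hmin' k hk (by omega)))
      rw [ha (k + 1) (by omega), Nat.add_sub_cancel]
      have := Int.le_of_dvd hpos (Int.gcd_dvd_left (a := a k)
        (b := (N : ℤ) - (-1) ^ (k + 1) * ((N : ℤ) - ((k + 1 : ℕ) : ℤ))))
      linarith
  refine ⟨ha1, fun n hn _ => ha n hn, ?_, ?_, ?_, haf, hf1, hnn⟩
  · intro n hn hnf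
    have h0 : a (n - 1) ≠ 0 := hmin' (n - 1) (by omega) (by omega)
    have := Int.gcd_pos_of_ne_zero_left (V N n) h0
    exact_mod_cast this
  · intro n _ _
    exact Int.gcd_dvd_left _ _
  · intro n _ _
    exact Int.gcd_dvd_right _ _

/-- the normalised jumps -/
noncomputable def appg_g (N f : ℕ) (γ : ℕ → ℤ) (n : ℕ) : ℝ :=
  if n = 0 then 1 else if n % 2 = 1 ∧ 3 ≤ n ∧ n ≤ f then (γ n : ℝ) / N else 0

section

variable {N f : ℕ} {a γ : ℕ → ℤ}

theorem appg_nn (h : Des N f a γ) (n : ℕ) : 0 ≤ appg_g N f γ n := by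
  unfold appg_g
  split_ifs with h1 h2
  · exact zero_le_one
  · have h3 : (0 : ℝ) ≤ γ n := by
      have := h.pos n (by omega) h2.2.2
      exact_mod_cast (by omega : (0 : ℤ) ≤ γ n)
    positivity
  · exact le_rfl

theorem appg_odd {n : ℕ} (h1 : n % 2 = 1) (h2 : 3 ≤ n) (h3 : n ≤ f) :
    appg_g N f γ n = (γ n : ℝ) / N := by
  unfold appg_g
  rw [if_neg (by omega), if_pos ⟨h1, h2, h3⟩]

theorem appg_zero {n : ℕ} (h0 : n ≠ 0) (h : ¬ (n % 2 = 1 ∧ 3 ≤ n ∧ n ≤ f)) :
    appg_g N f γ n = 0 := by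
  unfold appg_g
  rw [if_neg h0, if_neg h]

theorem appg_sum (h : Des N f a γ) (hN : 0 < N) {i : ℕ} (hi : 1 ≤ i) :
    ∀ k, i ≤ k → k ≤ f → (a i : ℝ) - a k ≤ N * (∑ n ∈ Ioc i k, appg_g N f γ n) +
      ((k : ℝ) - i) * f := by
  intro k hk
  have hN0 : (0 : ℝ) < N := by exact_mod_cast hN
  induction k, hk using Nat.le_induction with
  | base => intro _; simp
  | succ k hk ih =>
    intro hkf
    have h1 := ih (by omega)
    have h2 := h.step (k + 1) (by omega) hkf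
    rw [Nat.add_sub_cancel] at h2
    have h3 : (a (k + 1) : ℝ) = a k - γ (k + 1) := by exact_mod_cast h2
    have hf0 : (0 : ℝ) ≤ f := Nat.cast_nonneg _
    rw [Finset.sum_Ioc_succ_top hk, h3]
    push_cast
    rcases Nat.mod_two_eq_zero_or_one (k + 1) with he | ho
    · rw [appg_zero (by omega) (by omega)]
      have h4 : (γ (k + 1) : ℝ) ≤ f := by
        have := h.even_le (n := k + 1) (by omega) hkf he
        have h5 : γ (k + 1) ≤ (f : ℤ) := this.trans (by exact_mod_cast hkf)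
        exact_mod_cast h5
      linarith
    · rw [appg_odd ho (by omega) hkf]
      have h4 : (N : ℝ) * ((γ (k + 1) : ℝ) / N) = γ (k + 1) := by field_simp
      linarith

theorem appg_Ioo {i j : ℕ} (hj : 1 ≤ j) : Ioo i j = Ioc i (j - 1) := by
  ext n
  simp only [mem_Ioo, mem_Ioc]
  omega

theorem appg_jumps (h : Des N f a γ) (hN : 32 ≤ N) (hf : 16 * (f : ℝ) ^ 2 ≤ N) :
    Jumps f (appg_g N f γ) (N / (16 * (f : ℝ) ^ 2)) := by
  have hN0 : (0 : ℝ) < N := by exact_mod_cast (by omega : 0 < N)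
  have hN32 : (32 : ℝ) ≤ N := by exact_mod_cast hN
  have hfn := h.ge
  have hf2 : (2 : ℝ) ≤ f := by exact_mod_cast hfn
  have hf0 : (0 : ℝ) < f := by linarith
  have hF : (0 : ℝ) < 16 * (f : ℝ) ^ 2 := by positivity
  refine ⟨?_, appg_nn h, ?_, ?_⟩
  · unfold appg_g
    rw [if_pos rfl]
  · intro i j hij hjf hZ
    have hj0 : j ≠ 0 := by omega
    by_cases hj : j % 2 = 1 ∧ 3 ≤ j ∧ j ≤ f
    swap
    · rw [appg_zero hj0 hj, mul_zero, mul_zero] at hZ
      linarith
    obtain ⟨hj1, hj2, -⟩ := hj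
    rw [div_mul_eq_mul_div, le_div_iff₀ hF, one_mul] at hZ
    rw [appg_Ioo (by omega)]
    have hjm : ((j - 1 : ℕ) : ℝ) = (j : ℝ) - 1 := by
      rw [Nat.cast_sub (by omega)]
      simp
    have hjf' : (j : ℝ) ≤ f := by exact_mod_cast hjf
    rcases Nat.eq_zero_or_pos i with rfl | hi
    · have e0 : appg_g N f γ 0 = 1 := by
        unfold appg_g
        rw [if_pos rfl]
      rw [e0, one_mul] at hZ ⊢
      rw [appg_odd hj1 hj2 hjf] at hZ ⊢
      have e1 : (N : ℝ) * ((γ j : ℝ) / N) = γ j := by field_simp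
      rw [e1] at hZ
      have h1 := h.odd_le (n := j) (by omega) hjf hj1
      have h2 := appg_sum h (by omega : 0 < N) (i := 1) le_rfl (j - 1) (by omega) (by omega)
      have h3 : ∑ n ∈ Ioc 1 (j - 1), appg_g N f γ n ≤ ∑ n ∈ Ioc 0 (j - 1), appg_g N f γ n := by
        refine Finset.sum_le_sum_of_subset_of_nonneg ?_ fun n _ _ => appg_nn h n
        intro n hn
        rw [mem_Ioc] at hn ⊢
        omega
      have h4 : (γ j : ℝ) ≤ 2 * N - j - 2 * a (j - 1) := by exact_mod_cast h1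
      have h5 : (a 1 : ℝ) = N - 2 := by exact_mod_cast h.one
      have h6 : (3 : ℝ) ≤ j := by exact_mod_cast hj2
      rw [hjm, h5] at h2
      push_cast at h2
      have h7 : ((j : ℝ) - 1 - 1) * f ≤ f * f := by
        refine mul_le_mul_of_nonneg_right ?_ hf0.le
        linarith
      set s : ℝ := ∑ n ∈ Ioc 0 (j - 1), appg_g N f γ n with hs
      have h8 : (N : ℝ) * (∑ n ∈ Ioc 1 (j - 1), appg_g N f γ n) ≤ N * s :=
        mul_le_mul_of_nonneg_left h3 hN0.le
      rw [div_le_iff₀ hN0]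
      nlinarith
    · by_cases hi' : i % 2 = 1 ∧ 3 ≤ i ∧ i ≤ f
      swap
      · rw [appg_zero (by omega) hi', zero_mul, mul_zero] at hZ
        linarith
      obtain ⟨hi1, hi2, -⟩ := hi'
      rw [appg_odd hj1 hj2 hjf, appg_odd hi1 hi2 (by omega)] at hZ ⊢
      have h1 := h.key (n := i) (m := j) (by omega) hjf hij hi1 hj1
      have h2 := appg_sum h (by omega : 0 < N) (i := i) hi (j - 1) (by omega) (by omega)
      set s : ℝ := ∑ n ∈ Ioc i (j - 1), appg_g N f γ n with hs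
      have h3 : (γ i : ℝ) * γ j ≤ 2 * N * (a i - a (j - 1)) := by exact_mod_cast h1
      have e1 : (N : ℝ) * ((γ i : ℝ) / N * ((γ j : ℝ) / N)) = (γ i : ℝ) * γ j / N := by
        field_simp
      have e2 : (γ i : ℝ) / N * ((γ j : ℝ) / N) = (γ i : ℝ) * γ j / N / N := by
        field_simp
      rw [e1, le_div_iff₀ hN0] at hZ
      rw [e2, div_le_iff₀ hN0, div_le_iff₀ hN0]
      rw [hjm] at h2
      have h6 : (3 : ℝ) ≤ i := by exact_mod_cast hi2
      have h7 : ((j : ℝ) - 1 - i) * f ≤ f * f := by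
        refine mul_le_mul_of_nonneg_right ?_ hf0.le
        linarith
      have h8 : (a i : ℝ) - a (j - 1) ≤ N * s + f * f := by linarith
      have h9 : 2 * (N : ℝ) * (a i - a (j - 1)) ≤ 2 * N * (N * s + f * f) :=
        mul_le_mul_of_nonneg_left h8 (by positivity)
      have h10 : 0 ≤ s := Finset.sum_nonneg fun n _ => appg_nn h n
      nlinarith [mul_nonneg h10 (mul_nonneg hN0.le hN0.le)]
  · have h2 := appg_sum h (by omega : 0 < N) (i := 1) le_rfl f (by omega) le_rfl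
    have h3 : ∑ n ∈ Ioc 1 f, appg_g N f γ n ≤ ∑ n ∈ Ioc 0 f, appg_g N f γ n := by
      refine Finset.sum_le_sum_of_subset_of_nonneg ?_ fun n _ _ => appg_nn h n
      intro n hn
      rw [mem_Ioc] at hn ⊢
      omega
    have h4 : (a f : ℝ) = 0 := by exact_mod_cast h.zero
    have h5 : (a 1 : ℝ) = N - 2 := by exact_mod_cast h.one
    rw [h4, h5] at h2
    push_cast at h2
    set s : ℝ := ∑ n ∈ Ioc 0 f, appg_g N f γ n with hs
    have h8 : (N : ℝ) * (∑ n ∈ Ioc 1 f, appg_g N f γ n) ≤ N * s :=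
      mul_le_mul_of_nonneg_left h3 hN0.le
    have h9 : (N : ℝ) * 1 ≤ N * (8 * s) := by nlinarith
    exact le_of_mul_le_mul_left h9 hN0

end

theorem appg_main (hM : ST_MAIN) : ST_APPG := by
  refine ⟨10⁻¹ ^ 7, by positivity, fun N hN a ha1 ha f hf => ?_⟩
  have hd := appg_des N hN a ha1 ha f hf
  by_contra hcon
  push Not at hcon
  set L : ℝ := Real.log N with hL
  have hfn := hd.ge
  have hf2 : (2 : ℝ) ≤ f := by exact_mod_cast hfn
  have hN0 : (0 : ℝ) < N := by exact_mod_cast (by omega : 0 < N)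
  have hN1 : (1 : ℝ) ≤ N := by exact_mod_cast (by omega : 1 ≤ N)
  have hL0 : 0 ≤ L := Real.log_nonneg hN1
  have hL4 : 4000 < L := by
    by_contra hc
    push Not at hc
    nlinarith
  have hexp : Real.exp L = N := Real.exp_log hN0
  have hx := Real.pow_div_factorial_le_exp (L / 2) (by linarith) 4
  have hx4 : ((Nat.factorial 4 : ℕ) : ℝ) = 24 := by norm_num [Nat.factorial]
  rw [hx4] at hx
  have hfs : (f : ℝ) ^ 2 ≤ (10⁻¹ ^ 7 * L ^ 2) ^ 2 := pow_le_pow_left₀ (by linarith) hcon.le 2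
  have hL4' : 0 ≤ L ^ 4 := by positivity
  have hE : 16 * (f : ℝ) ^ 2 ≤ Real.exp (L / 2) := by
    refine le_trans ?_ hx
    have e1 : (10⁻¹ ^ 7 * L ^ 2) ^ 2 = 10⁻¹ ^ 14 * L ^ 4 := by ring
    have e2 : (L / 2) ^ 4 / 24 = L ^ 4 / 384 := by ring
    rw [e1] at hfs
    rw [e2]
    have : 16 * ((10⁻¹ : ℝ) ^ 14 * L ^ 4) ≤ L ^ 4 / 384 := by
      have : (16 : ℝ) * 10⁻¹ ^ 14 ≤ 1 / 384 := by norm_num
      nlinarith
    linarith
  have hEE : Real.exp (L / 2) * Real.exp (L / 2) = N := by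
    rw [← Real.exp_add, add_halves, hexp]
  have hE1 : 1 ≤ Real.exp (L / 2) := Real.one_le_exp (by linarith)
  have hEN : Real.exp (L / 2) ≤ N := by nlinarith
  have hN32 : 32 ≤ N := by
    have h1 := Real.add_one_le_exp L
    rw [hexp] at h1
    have : (32 : ℝ) ≤ N := by linarith
    exact_mod_cast this
  have hJ := appg_jumps hd hN32 (hE.trans hEN)
  have hF : (0 : ℝ) < 16 * (f : ℝ) ^ 2 := by positivity
  have hZ : Real.exp (L / 2) ≤ N / (16 * (f : ℝ) ^ 2) := by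
    rw [le_div_iff₀ hF]
    calc Real.exp (L / 2) * (16 * (f : ℝ) ^ 2) ≤ Real.exp (L / 2) * Real.exp (L / 2) :=
          mul_le_mul_of_nonneg_left hE (Real.exp_pos _).le
      _ = N := hEE
  have hm := hM f _ _ hJ (hE1.trans hZ)
  have hlog : L / 2 ≤ Real.log (N / (16 * (f : ℝ) ^ 2)) := by
    rw [Real.le_log_iff_exp_le (lt_of_lt_of_le (Real.exp_pos _) hZ)]
    exact hZ
  have hsq : (L / 2) ^ 2 ≤ Real.log (N / (16 * (f : ℝ) ^ 2)) ^ 2 :=
    pow_le_pow_left₀ (by linarith) hlog 2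
  nlinarith

end Pool.Agent.N60.ZG
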