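import Pool.Agent.N60.ZG.Stm

set_option autoImplicit false

/-! Project ZG (helper60), leaf ZG/APPM (helper595): the recursion with `n (n + 2 m)`. -/

namespace Pool.Agent.N60.ZG

theorem appm_main : ST_INC → ST_MAIN → ST_APPM := by
  classical
  intro hI hM
  refine ⟨1 / 10 ^ 7, by positivity, ?_⟩
  intro m hm a h1 hrec n n' hn hnn' hz hz'
  have hnn : ∀ k, 1 ≤ k → 0 ≤ a k := by
    intro k hk
    rcases Nat.eq_or_lt_of_le hk with h | h
    · rw [← h, h1]
      positivity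
    · rw [hrec k h]
      exact abs_nonneg _
  obtain ⟨V, hV⟩ : ∃ V : ℕ → ℕ, ∀ k, V k = k * (k + 2 * m) := ⟨_, fun _ => rfl⟩
  have hV' : ∀ k : ℕ, (k : ℤ) * ((k : ℤ) + 2 * (m : ℤ)) = (V k : ℤ) := by
    intro k
    rw [hV]
    push_cast
    ring
  have hgcd : ∀ (x : ℤ) (k : ℕ), Int.gcd x ((k : ℤ) * ((k : ℤ) + 2 * (m : ℤ))) =
      Nat.gcd x.natAbs (V k) := by
    intro x k
    rw [hV']
    rfl
  have ha1 : a (n + 1) = (V (n + 1) : ℤ) := by
    rw [hrec (n + 1) (by omega), Nat.add_sub_cancel, hz, hgcd]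
    simp
  have hV1 : 0 < V (n + 1) := by
    rw [hV]
    positivity
  have hex : ∃ k, n < k ∧ a k = 0 := ⟨n', hnn', hz'⟩
  obtain ⟨f, hf1, hf2, hfmin, hfn'⟩ : ∃ f, n < f ∧ a f = 0 ∧ (∀ k, n < k → k < f → a k ≠ 0) ∧
      f ≤ n' :=
    ⟨Nat.find hex, (Nat.find_spec hex).1, (Nat.find_spec hex).2,
      fun k hk1 hk2 hk3 => Nat.find_min hex hk2 ⟨hk1, hk3⟩, Nat.find_min' hex ⟨hnn', hz'⟩⟩
  have hf3 : n + 1 < f := by
    rcases Nat.lt_or_ge (n + 1) f with h | h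
    · exact h
    · exfalso
      have : f = n + 1 := by omega
      rw [this, ha1] at hf2
      have : V (n + 1) = 0 := by exact_mod_cast hf2
      omega
  have hstep : ∀ k, n + 1 < k → k ≤ f →
      0 < (a (k - 1)).natAbs ∧ (a k).natAbs + Nat.gcd (a (k - 1)).natAbs (V k) =
        (a (k - 1)).natAbs := by
    intro k hk1 hk2
    have hne := hfmin (k - 1) (by omega) (by omega)
    have h0 : 0 < (a (k - 1)).natAbs := Int.natAbs_pos.2 hne
    refine ⟨h0, ?_⟩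
    have hle : Nat.gcd (a (k - 1)).natAbs (V k) ≤ (a (k - 1)).natAbs :=
      Nat.le_of_dvd h0 (Nat.gcd_dvd_left _ _)
    have hab : ((a (k - 1)).natAbs : ℤ) = a (k - 1) :=
      Int.natAbs_of_nonneg (hnn _ (by omega))
    have hk : a k = ((a (k - 1)).natAbs : ℤ) - (Nat.gcd (a (k - 1)).natAbs (V k) : ℕ) := by
      rw [hrec k (by omega), hgcd, hab]
      apply abs_of_nonneg
      have : ((Nat.gcd (a (k - 1)).natAbs (V k) : ℕ) : ℤ) ≤ ((a (k - 1)).natAbs : ℤ) := by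
        exact_mod_cast hle
      omega
    have hak : ((a k).natAbs : ℤ) = a k := Int.natAbs_of_nonneg (hnn _ (by omega))
    omega
  have hVm : ∀ k, n + 1 ≤ k → k < f → V k < V (k + 1) := by
    intro k _ _
    rw [hV, hV]
    nlinarith
  by_contra hcon
  push Not at hcon
  obtain ⟨H, hH⟩ : ∃ H : ℕ, f = n + 1 + H := ⟨f - (n + 1), by omega⟩
  have hH1 : (1 : ℝ) ≤ H := by
    have : 1 ≤ H := by omega
    exact_mod_cast this
  have hHn : (H : ℝ) ≤ (n' : ℝ) - n := by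
    have : n + H ≤ n' := by omega
    have h2 : ((n : ℝ) + H) ≤ n' := by exact_mod_cast this
    linarith
  have hn1 : (1 : ℝ) ≤ n := by exact_mod_cast hn
  have hL0 : 0 ≤ Real.log n := Real.log_nonneg hn1
  have hHL : (H : ℝ) < 1 / 10 ^ 7 * (Real.log n) ^ 2 := lt_of_le_of_lt hHn hcon
  -- `(log n)^2 ≤ 16 sqrt n`
  have hsq : (Real.log n) ^ 2 ≤ 16 * Real.sqrt n := by
    have h2 : 0 < Real.sqrt (Real.sqrt n) := Real.sqrt_pos.2 (Real.sqrt_pos.2 (by linarith))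
    have h3 := Real.log_le_sub_one_of_pos h2
    rw [Real.log_sqrt (Real.sqrt_nonneg _), Real.log_sqrt (by linarith)] at h3
    have h4 : Real.log n ≤ 4 * Real.sqrt (Real.sqrt n) := by linarith
    have h5 : Real.sqrt (Real.sqrt n) ^ 2 = Real.sqrt n := Real.sq_sqrt (Real.sqrt_nonneg _)
    calc (Real.log n) ^ 2 ≤ (4 * Real.sqrt (Real.sqrt n)) ^ 2 := by gcongr
      _ = 16 * Real.sqrt n := by rw [mul_pow, h5]; norm_num
  have hs1 : 1 ≤ Real.sqrt n := Real.one_le_sqrt.2 hn1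
  have hs2 : Real.sqrt n * Real.sqrt n = n := Real.mul_self_sqrt (by linarith)
  have hH12 : 12 * (H : ℝ) ≤ Real.sqrt n := by
    have : 12 * (H : ℝ) < 12 * (1 / 10 ^ 7 * (16 * Real.sqrt n)) := by
      have := mul_le_mul_of_nonneg_left hsq (by norm_num : (0 : ℝ) ≤ 1 / 10 ^ 7)
      linarith
    linarith
  have hHn0 : (H : ℝ) ≤ n := by nlinarith
  have h12 : (0 : ℝ) < 12 * H := by linarith
  have hZs : Real.sqrt n ≤ ((n : ℝ) + 1) / (12 * H) := by
    rw [le_div_iff₀ h12]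
    nlinarith
  have hZ1 : 1 ≤ ((n : ℝ) + 1) / (12 * H) := hs1.trans hZs
  have hcond : 4 * (((n : ℝ) + 1) / (12 * H)) * ((V f : ℝ) - V (n + 1)) ≤ V (n + 1) := by
    have e1 : (V f : ℝ) - V (n + 1) = H * (2 * (n + 1) + H + 2 * m) := by
      rw [hV, hV, hH]
      push_cast
      ring
    have e2 : (V (n + 1) : ℝ) = (n + 1) * (n + 1 + 2 * m) := by
      rw [hV]
      push_cast
      ring
    have hH0 : (H : ℝ) ≠ 0 := by linarith
    have e3 : 4 * (((n : ℝ) + 1) / (12 * H)) * (H * (2 * (n + 1) + H + 2 * m)) =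
        (n + 1) * ((2 * (n + 1) + H + 2 * m) / 3) := by
      field_simp
      ring
    rw [e1, e2, e3]
    have hm0 : (0 : ℝ) ≤ m := Nat.cast_nonneg _
    apply mul_le_mul_of_nonneg_left _ (by linarith)
    linarith
  have hfin := hI hM (n + 1) f (fun k => (a k).natAbs) V (((n : ℝ) + 1) / (12 * H)) hf3
    (by simp [ha1]) (by simp [hf2]) hV1 hstep hVm hZ1 hcond
  have hlog : Real.log n / 2 ≤ Real.log (((n : ℝ) + 1) / (12 * H)) := by
    rw [← Real.log_sqrt (by linarith)]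
    exact Real.log_le_log (by linarith) hZs
  have hlog2 : (Real.log n / 2) ^ 2 ≤ (Real.log (((n : ℝ) + 1) / (12 * H))) ^ 2 := by
    gcongr
  have hfH : (f : ℝ) - ((n + 1 : ℕ) : ℝ) = H := by
    rw [hH]
    push_cast
    ring
  rw [hfH] at hfin
  nlinarith [sq_nonneg (Real.log n)]

end Pool.Agent.N60.ZG
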