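import Pool.Agent.N60.ZG.Stm

/-! ZG/APPP (helper134 for helper60). -/

set_option autoImplicit false

namespace Pool.Agent.N60.ZG

open Finset Pool.Agent.R330.GL

theorem APPP_pow {p n₀ H : ℕ} (hp : 1 ≤ p) (hn : 1 ≤ n₀) (hH : (H : ℝ) ≤ n₀ / p) :
    ((n₀ + H : ℕ) : ℝ) ^ p - (n₀ : ℝ) ^ p ≤ 3 * H * p * (n₀ : ℝ) ^ (p - 1) := by
  have hp0 : (0 : ℝ) < p := by exact_mod_cast hp
  have hn0 : (0 : ℝ) < n₀ := by exact_mod_cast hn
  have hf0 : (0 : ℝ) < ((n₀ + H : ℕ) : ℝ) := by exact_mod_cast (by omega : 0 < n₀ + H)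
  obtain ⟨F, hF⟩ : ∃ F : ℝ, F = ((n₀ + H : ℕ) : ℝ) := ⟨_, rfl⟩
  rw [← hF] at hf0 ⊢
  have hFe : F = n₀ + H := by rw [hF]; push_cast; ring
  have hH0 : (0 : ℝ) ≤ H := Nat.cast_nonneg _
  -- Bernoulli
  have hb : F ^ p - (n₀ : ℝ) ^ p ≤ H * p * F ^ (p - 1) := by
    have h1 : -2 ≤ -((H : ℝ) / F) := by
      have : (H : ℝ) / F ≤ 1 := by
        rw [div_le_one hf0]
        linarith
      linarith
    have h2 := one_add_mul_le_pow h1 p
    have h3 : 1 + -((H : ℝ) / F) = n₀ / F := by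
      rw [hFe]
      rw [hFe] at hf0
      field_simp
      ring
    rw [h3, div_pow] at h2
    have h4 : (1 + (p : ℝ) * -((H : ℝ) / F)) * F ^ p ≤ (n₀ : ℝ) ^ p := by
      rwa [le_div_iff₀ (by positivity)] at h2
    have h5 : F ^ p = F ^ (p - 1) * F := by
      rw [← pow_succ]
      congr 1
      omega
    have h6 : (p : ℝ) * ((H : ℝ) / F) * F ^ p = H * p * F ^ (p - 1) := by
      rw [h5]
      field_simp
    nlinarith
  have hF2 : F ≤ n₀ * (1 + 1 / p) := by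
    rw [hFe]
    have : (n₀ : ℝ) * (1 + 1 / p) = n₀ + n₀ / p := by ring
    linarith
  have h1p : (1 : ℝ) ≤ 1 + 1 / p := by
    have : 0 < 1 / (p : ℝ) := by positivity
    linarith
  have he : (1 + 1 / (p : ℝ)) ^ (p - 1) ≤ 3 := by
    calc (1 + 1 / (p : ℝ)) ^ (p - 1) ≤ (1 + 1 / (p : ℝ)) ^ p := pow_le_pow_right₀ h1p (by omega)
      _ ≤ (Real.exp (1 / (p : ℝ))) ^ p := by
          refine pow_le_pow_left₀ (by positivity) ?_ p
          have := Real.add_one_le_exp (1 / (p : ℝ))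
          linarith
      _ = Real.exp 1 := by
          rw [← Real.exp_nat_mul]
          congr 1
          field_simp
      _ ≤ 3 := by
          have := Real.exp_one_lt_d9
          linarith
  have hF3 : F ^ (p - 1) ≤ 3 * (n₀ : ℝ) ^ (p - 1) := by
    calc F ^ (p - 1) ≤ (n₀ * (1 + 1 / (p : ℝ))) ^ (p - 1) := pow_le_pow_left₀ hf0.le hF2 _
      _ = (1 + 1 / (p : ℝ)) ^ (p - 1) * (n₀ : ℝ) ^ (p - 1) := by rw [mul_pow]; ring
      _ ≤ 3 * (n₀ : ℝ) ^ (p - 1) := mul_le_mul_of_nonneg_right he (by positivity)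
  calc F ^ p - (n₀ : ℝ) ^ p ≤ H * p * F ^ (p - 1) := hb
    _ ≤ H * p * (3 * (n₀ : ℝ) ^ (p - 1)) := mul_le_mul_of_nonneg_left hF3 (by positivity)
    _ = 3 * H * p * (n₀ : ℝ) ^ (p - 1) := by ring

theorem APPP_log (x : ℝ) (hx : 1 ≤ x) : (Real.log x) ^ 2 ≤ 16 * Real.sqrt x := by
  have h0 : 0 < x := by linarith
  have h1 : 0 < Real.sqrt x := Real.sqrt_pos.2 h0
  have h2 : 0 < Real.sqrt (Real.sqrt x) := Real.sqrt_pos.2 h1
  have h3 := Real.log_le_sub_one_of_pos h2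
  rw [Real.log_sqrt h1.le, Real.log_sqrt h0.le] at h3
  have h4 : 0 ≤ Real.log x := Real.log_nonneg hx
  have h5 : Real.log x ≤ 4 * Real.sqrt (Real.sqrt x) := by linarith
  calc (Real.log x) ^ 2 ≤ (4 * Real.sqrt (Real.sqrt x)) ^ 2 := pow_le_pow_left₀ h4 h5 2
    _ = 16 * Real.sqrt x := by
        rw [mul_pow, Real.sq_sqrt h1.le]
        norm_num

theorem appp_main : ST_INC → ST_MAIN → ST_APPP := by
  intro hinc hmain
  refine ⟨1 / 10 ^ 7, by norm_num, fun p hp a ha1 hrec n n' hn hnn' han han' hpn => ?_⟩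
  classical
  have hp1 : 1 ≤ p := hp.one_lt.le
  -- the first zero after `n`
  have hex : ∃ f, n < f ∧ a f = 0 := ⟨n', hnn', han'⟩
  obtain ⟨f, hnf, haf, hfn', hmin⟩ : ∃ f, n < f ∧ a f = 0 ∧ f ≤ n' ∧ ∀ k, n < k → k < f → a k ≠ 0 := by
    refine ⟨Nat.find hex, (Nat.find_spec hex).1, (Nat.find_spec hex).2, Nat.find_min' hex ⟨hnn', han'⟩, ?_⟩
    intro k hk1 hk2 hk3
    exact Nat.find_min hex hk2 ⟨hk1, hk3⟩
  have hnonneg : ∀ k, 1 ≤ k → 0 ≤ a k := by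
    intro k hk
    rcases Nat.lt_or_ge k 2 with h | h
    · have : k = 1 := by omega
      rw [this, ha1]
      norm_num
    · rw [hrec k h]
      exact abs_nonneg _
  have hVabs : ∀ k : ℕ, 1 ≤ k → ((k : ℤ) ^ p - 1).natAbs = k ^ p - 1 := by
    intro k hk
    have h1 : 1 ≤ k ^ p := Nat.one_le_pow _ _ hk
    have h2 : ((k : ℤ) ^ p - 1) = ((k ^ p - 1 : ℕ) : ℤ) := by
      push_cast [Nat.cast_sub h1]
      ring
    rw [h2, Int.natAbs_natCast]
  have hstart : (a (n + 1)).natAbs = (n + 1) ^ p - 1 := by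
    have h1 := hrec (n + 1) (by omega)
    rw [Nat.add_sub_cancel, han] at h1
    rw [h1, Int.natAbs_abs, zero_sub, Int.natAbs_neg, Int.natAbs_natCast, Int.gcd_zero_left]
    exact hVabs (n + 1) (by omega)
  have hVpos : 0 < (n + 1) ^ p - 1 := by
    have : 2 ^ 1 ≤ (n + 1) ^ p := by
      calc 2 ^ 1 ≤ 2 ^ p := Nat.pow_le_pow_right (by norm_num) hp1
        _ ≤ (n + 1) ^ p := Nat.pow_le_pow_left (by omega) p
    omega
  have hf2 : n + 1 < f := by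
    rcases Nat.lt_or_ge (n + 1) f with h | h
    · exact h
    · exfalso
      have h1 : f = n + 1 := by omega
      rw [h1] at haf
      rw [haf] at hstart
      simp only [Int.natAbs_zero] at hstart
      omega
  have hstep : ∀ k, n + 1 < k → k ≤ f → 0 < (a (k - 1)).natAbs ∧
      (a k).natAbs + Nat.gcd (a (k - 1)).natAbs (k ^ p - 1) = (a (k - 1)).natAbs := by
    intro k hk1 hk2
    have h0 : a (k - 1) ≠ 0 := hmin (k - 1) (by omega) (by omega)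
    have h1 : 0 < (a (k - 1)).natAbs := Int.natAbs_pos.2 h0
    have h2 : Int.gcd (a (k - 1)) ((k : ℤ) ^ p - 1) = Nat.gcd (a (k - 1)).natAbs (k ^ p - 1) := by
      rw [Int.gcd_eq_natAbs, hVabs k (by omega)]
    have h3 : Nat.gcd (a (k - 1)).natAbs (k ^ p - 1) ≤ (a (k - 1)).natAbs :=
      Nat.le_of_dvd h1 (Nat.gcd_dvd_left _ _)
    have h4 : ((a (k - 1)).natAbs : ℤ) = a (k - 1) := Int.natAbs_of_nonneg (hnonneg _ (by omega))
    refine ⟨h1, ?_⟩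
    have h5 := hrec k (by omega)
    rw [h2] at h5
    obtain ⟨G, hG⟩ : ∃ G : ℕ, G = Nat.gcd (a (k - 1)).natAbs (k ^ p - 1) := ⟨_, rfl⟩
    rw [← hG] at h3 h5 ⊢
    have h6 : 0 ≤ a (k - 1) - G := by omega
    rw [abs_of_nonneg h6] at h5
    omega
  obtain ⟨H, hH⟩ : ∃ H : ℕ, f = (n + 1) + H := ⟨f - (n + 1), by omega⟩
  have hH1 : 1 ≤ H := by omega
  have hp0 : (0 : ℝ) < p := by exact_mod_cast hp1
  have hHr1 : (1 : ℝ) ≤ H := by exact_mod_cast hH1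
  obtain ⟨x, hx⟩ : ∃ x : ℝ, x = (n : ℝ) / p := ⟨_, rfl⟩
  have hx1 : 1 ≤ x := by
    rw [hx, le_div_iff₀ hp0, one_mul]
    exact_mod_cast hpn
  have hx0 : 0 < x := by linarith
  have hn'f : (H : ℝ) ≤ (n' : ℝ) - n := by
    have h1 : n + 1 + H ≤ n' := by omega
    have h2 : ((n + 1 + H : ℕ) : ℝ) ≤ n' := by exact_mod_cast h1
    push_cast at h2
    linarith
  rw [← hx]
  refine le_trans ?_ hn'f
  by_contra hlt
  push Not at hlt
  have hlog := APPP_log x hx1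
  have hsx1 : 1 ≤ Real.sqrt x := Real.one_le_sqrt.2 hx1
  have hsq : Real.sqrt x * Real.sqrt x = x := Real.mul_self_sqrt hx0.le
  have h24 : 24 * (H : ℝ) ≤ Real.sqrt x := by linarith
  have hsx : Real.sqrt x ≤ x := by nlinarith
  have hnr : (x : ℝ) ≤ ((n + 1 : ℕ) : ℝ) / p := by
    rw [hx]
    refine div_le_div_of_nonneg_right ?_ hp0.le
    push_cast
    linarith
  have hHn : (H : ℝ) ≤ ((n + 1 : ℕ) : ℝ) / p := by linarith
  obtain ⟨Z, hZ⟩ : ∃ Z : ℝ, Z = ((n + 1 : ℕ) : ℝ) / (24 * H * p) := ⟨_, rfl⟩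
  have hZs : Real.sqrt x ≤ Z := by
    have h1 : Z = ((n + 1 : ℕ) : ℝ) / p / (24 * H) := by
      rw [hZ, div_div]
      congr 1
      ring
    rw [h1, le_div_iff₀ (by positivity)]
    calc Real.sqrt x * (24 * H) ≤ Real.sqrt x * Real.sqrt x :=
          mul_le_mul_of_nonneg_left h24 (Real.sqrt_nonneg _)
      _ = x := hsq
      _ ≤ _ := hnr
  have hN0 : (0 : ℝ) < ((n + 1 : ℕ) : ℝ) := by positivity
  have hV0 : 4 * Z * ((((n + 1 + H) ^ p - 1 : ℕ) : ℝ) - (((n + 1) ^ p - 1 : ℕ) : ℝ)) ≤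
      (((n + 1) ^ p - 1 : ℕ) : ℝ) := by
    have e1 : (((n + 1 + H) ^ p - 1 : ℕ) : ℝ) = (((n + 1 + H : ℕ) : ℝ)) ^ p - 1 := by
      rw [Nat.cast_sub (Nat.one_le_pow _ _ (by omega)), Nat.cast_pow, Nat.cast_one]
    have e2 : (((n + 1) ^ p - 1 : ℕ) : ℝ) = (((n + 1 : ℕ) : ℝ)) ^ p - 1 := by
      rw [Nat.cast_sub (Nat.one_le_pow _ _ (by omega)), Nat.cast_pow, Nat.cast_one]
    have h1 := APPP_pow hp1 (by omega : 1 ≤ n + 1) hHn
    have hZ0 : 0 ≤ Z := by linarith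
    have h2 : (2 : ℝ) ≤ (((n + 1 : ℕ) : ℝ)) ^ p := by
      have : 2 ≤ (n + 1) ^ p := by omega
      exact_mod_cast this
    have h3 : 4 * Z * (3 * H * p * (((n + 1 : ℕ) : ℝ)) ^ (p - 1)) = (((n + 1 : ℕ) : ℝ)) ^ p / 2 := by
      have h5 : (((n + 1 : ℕ) : ℝ)) ^ p = (((n + 1 : ℕ) : ℝ)) ^ (p - 1) * ((n + 1 : ℕ) : ℝ) := by
        rw [← pow_succ]
        congr 1
        omega
      rw [h5, hZ]
      field_simp
      ring
    rw [e1, e2]
    calc 4 * Z * ((((n + 1 + H : ℕ) : ℝ)) ^ p - 1 - ((((n + 1 : ℕ) : ℝ)) ^ p - 1)) =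
          4 * Z * ((((n + 1 + H : ℕ) : ℝ)) ^ p - (((n + 1 : ℕ) : ℝ)) ^ p) := by ring
      _ ≤ 4 * Z * (3 * H * p * (((n + 1 : ℕ) : ℝ)) ^ (p - 1)) :=
          mul_le_mul_of_nonneg_left h1 (by linarith)
      _ = (((n + 1 : ℕ) : ℝ)) ^ p / 2 := h3
      _ ≤ _ := by linarith
  have key := hinc hmain (n + 1) f (fun k => (a k).natAbs) (fun k => k ^ p - 1) Z hf2 hstart
    (by simp [haf]) hVpos hstep
    (fun k hk _ => by
      have h1 : k ^ p < (k + 1) ^ p := Nat.pow_lt_pow_left (by omega) (by omega)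
      have h2 : 1 ≤ k ^ p := Nat.one_le_pow _ _ (by omega)
      show k ^ p - 1 < (k + 1) ^ p - 1
      omega)
    (by linarith) (by rw [hH]; exact hV0)
  have hlogZ : 1 / 2 * Real.log x ≤ Real.log Z := by
    have h1 := Real.log_le_log (by linarith : 0 < Real.sqrt x) hZs
    rw [Real.log_sqrt hx0.le] at h1
    linarith
  have hlx : 0 ≤ Real.log x := Real.log_nonneg hx1
  have h7 : (1 / 2 * Real.log x) ^ 2 ≤ Real.log Z ^ 2 := pow_le_pow_left₀ (by linarith) hlogZ 2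
  have h8 : ((f : ℝ) - ((n + 1 : ℕ) : ℝ)) = H := by
    rw [hH]
    push_cast
    ring
  rw [h8] at key
  nlinarith [sq_nonneg (Real.log x)]

end Pool.Agent.N60.ZG
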