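import Pool.Agent.N60.ZG.TOP

set_option autoImplicit false

/-! Project ZG (helper60): the number of the zeros from the gaps. -/

namespace Pool.Agent.N60.ZG

open Finset

lemma log_sq_le (X : ℝ) (hX : 1 ≤ X) : (Real.log X) ^ 2 ≤ 16 * √X := by
  have h0 : 0 ≤ Real.log X := Real.log_nonneg hX
  have h1 : Real.log X ≤ X ^ (1 / 4 : ℝ) / (1 / 4 : ℝ) :=
    Real.log_le_rpow_div (by linarith) (by norm_num)
  have h2 : Real.log X ≤ 4 * X ^ (1 / 4 : ℝ) := by
    have : X ^ (1 / 4 : ℝ) / (1 / 4 : ℝ) = 4 * X ^ (1 / 4 : ℝ) := by ring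
    linarith
  calc (Real.log X) ^ 2 ≤ (4 * X ^ (1 / 4 : ℝ)) ^ 2 := by gcongr
    _ = 16 * (X ^ (1 / 4 : ℝ) * X ^ (1 / 4 : ℝ)) := by ring
    _ = 16 * √X := by
      rw [← Real.rpow_add (by linarith), Real.sqrt_eq_rpow]
      norm_num

/-- sets of natural numbers with gaps at least `c (log n)^2` from `n ≥ M` on -/
theorem count (c : ℝ) (hc : 0 < c) (M : ℕ) : ∃ C : ℝ, 0 < C ∧ ∀ P : ℕ → Prop,
    (∀ n n' : ℕ, M ≤ n → 1 ≤ n → n < n' → P n → P n' → c * (Real.log n) ^ 2 ≤ (n' : ℝ) - n) →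
    ∀ X : ℕ, 2 ≤ X → (({n : ℕ | 1 ≤ n ∧ n ≤ X ∧ P n}.ncard : ℕ) : ℝ) ≤ C * (X / (Real.log X) ^ 2) := by
  refine ⟨16 * M + 16 + 16 + 16 + 4 / c, by positivity, ?_⟩
  intro P hP X hX
  classical
  have hX2 : (2 : ℝ) ≤ X := by exact_mod_cast hX
  have hX0 : (0 : ℝ) < X := by linarith
  have hL : 0 < Real.log X := Real.log_pos (by linarith)
  set r := Nat.sqrt X with hr
  set E1 := (Icc 1 X).filter (fun n => P n ∧ n ≤ r) with hE1
  set E2 := (Icc 1 X).filter (fun n => P n ∧ r < n ∧ M ≤ n) with hE2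
  have hset : {n : ℕ | 1 ≤ n ∧ n ≤ X ∧ P n} = (((Icc 1 X).filter P : Finset ℕ) : Set ℕ) := by
    ext n
    simp only [Set.mem_ofPred_eq, coe_filter, mem_Icc]
    tauto
  rw [hset, Set.ncard_coe_finset]
  have hsub : (Icc 1 X).filter P ⊆ (E1 ∪ E2) ∪ range M := by
    intro n hn
    rw [mem_filter] at hn
    rw [mem_union, mem_union]
    rcases Nat.lt_or_ge n M with h | h
    · exact Or.inr (mem_range.mpr h)
    · left
      rcases Nat.lt_or_ge r n with h' | h'
      · right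
        exact mem_filter.mpr ⟨hn.1, hn.2, h', h⟩
      · left
        exact mem_filter.mpr ⟨hn.1, hn.2, h'⟩
  have hc1 : E1.card ≤ r := by
    have : E1 ⊆ Icc 1 r := by
      intro n hn
      rw [hE1, mem_filter, mem_Icc] at hn
      exact mem_Icc.mpr ⟨hn.1.1, hn.2.2⟩
    have h2 := card_le_card this
    rwa [Nat.card_Icc, Nat.add_sub_cancel] at h2
  -- the elements beyond the square root
  have hsqrt : Real.sqrt X ≤ r + 1 := Real.real_sqrt_le_nat_sqrt_succ
  set d : ℝ := c * ((1 / 2) * Real.log X) ^ 2 with hd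
  have hd0 : 0 < d := by positivity
  have hgap : ∀ i j, (P i ∧ r < i ∧ M ≤ i) → (P j ∧ r < j ∧ M ≤ j) → i < j → ⌈d⌉₊ ≤ j - i := by
    intro i j hi hj hij
    have h1 := hP i j hi.2.2 (by omega) hij hi.1 hj.1
    have h2 : Real.sqrt X ≤ i := hsqrt.trans (by exact_mod_cast hi.2.1)
    have h3 : (1 / 2) * Real.log X ≤ Real.log i := by
      have h4 := Real.log_le_log (Real.sqrt_pos.mpr hX0) h2
      rw [Real.log_sqrt hX0.le] at h4
      linarith
    have h5 : d ≤ (j : ℝ) - i := by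
      refine le_trans ?_ h1
      rw [hd]
      have h0 : 0 ≤ (1 / 2) * Real.log X := by positivity
      gcongr
    rw [Nat.ceil_le, Nat.cast_sub hij.le]
    exact h5
  have hc2 : (E2.card : ℝ) ≤ 1 + X / d := by
    rcases Nat.eq_zero_or_pos E2.card with h0 | h0
    · rw [h0]
      push_cast
      positivity
    · obtain ⟨n, hn⟩ : ∃ n, E2.card = n + 1 := ⟨E2.card - 1, by omega⟩
      have h1 := chain (fun i => P i ∧ r < i ∧ M ≤ i) ⌈d⌉₊ hgap 0 n E2 X hn (by
        intro k hk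
        rw [hE2, mem_filter, mem_Icc] at hk
        exact ⟨hk.2, Nat.zero_le _, hk.1.2⟩)
      rw [Nat.sub_zero] at h1
      have h2 : (n : ℝ) * ⌈d⌉₊ ≤ X := by exact_mod_cast h1
      have h3 : (n : ℝ) * d ≤ X := le_trans (by gcongr; exact Nat.le_ceil d) h2
      have h4 : (n : ℝ) ≤ X / d := by rwa [le_div_iff₀ hd0]
      rw [hn]
      push_cast
      linarith
  have hcard : (((Icc 1 X).filter P).card : ℝ) ≤ r + (1 + X / d) + M := by
    have h1 : ((Icc 1 X).filter P).card ≤ E1.card + E2.card + M := by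
      refine (card_le_card hsub).trans ((card_union_le _ _).trans ?_)
      rw [card_range]
      have := card_union_le E1 E2
      omega
    have h2 : (((Icc 1 X).filter P).card : ℝ) ≤ (E1.card : ℝ) + E2.card + M := by exact_mod_cast h1
    have h3 : (E1.card : ℝ) ≤ r := by exact_mod_cast hc1
    linarith
  -- comparison
  have hq : (Real.log X) ^ 2 ≤ 16 * √(X : ℝ) := log_sq_le X (by linarith)
  have hsX : √(X : ℝ) * √(X : ℝ) = X := Real.mul_self_sqrt hX0.le
  have hs0 : 0 < √(X : ℝ) := Real.sqrt_pos.mpr hX0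
  have hs1 : 1 ≤ √(X : ℝ) := by
    rw [Real.one_le_sqrt]
    linarith
  have hT : √(X : ℝ) ≤ 16 * (X / (Real.log X) ^ 2) := by
    rw [← mul_div_assoc, le_div_iff₀ (by positivity)]
    calc √(X : ℝ) * (Real.log X) ^ 2 ≤ √(X : ℝ) * (16 * √(X : ℝ)) := by gcongr
      _ = 16 * (√(X : ℝ) * √(X : ℝ)) := by ring
      _ = 16 * X := by rw [hsX]
  have hT1 : 1 ≤ 16 * (X / (Real.log X) ^ 2) := hs1.trans hT
  have hr' : (r : ℝ) ≤ √(X : ℝ) := by
    rw [hr]
    exact Real.nat_sqrt_le_real_sqrt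
  have hXd : X / d = 4 / c * (X / (Real.log X) ^ 2) := by
    rw [hd]
    field_simp
    ring
  have hM0 : (0 : ℝ) ≤ M := Nat.cast_nonneg _
  have hY0 : 0 ≤ (X : ℝ) / (Real.log X) ^ 2 := by positivity
  have hMT : (M : ℝ) ≤ M * (16 * (X / (Real.log X) ^ 2)) := by nlinarith
  rw [hXd] at hcard
  refine hcard.trans ?_
  nlinarith

end Pool.Agent.N60.ZG
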