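import Pool.Agent.N60.ZG.Stm

set_option autoImplicit false

/-! Project ZG, leaf COMB (helper803): the lattice point inequality for coprime pairs. -/

namespace Pool.Agent.N60.ZG

open Finset Pool.Agent.R330.GL

theorem diag_main : ST_DIAG := by
  intro T K hT
  obtain ⟨K', hK'⟩ : ∃ K' : ℕ, K' = K / T := ⟨_, rfl⟩
  have hS : S T T K = S 1 1 K' := by
    ext t
    rw [mem_S hT hT, mem_S le_rfl le_rfl]
    have hiff : (t.1 * T + t.2 * T ≤ K) ↔ (t.1 * 1 + t.2 * 1 ≤ K') := by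
      rw [hK', Nat.le_div_iff_mul_le hT, mul_one, mul_one, add_mul]
    rw [hiff]
  have hK : K ≤ T * (K' + 1) := by
    have := Nat.lt_mul_div_succ K hT
    rw [hK']
    exact this.le
  have hD : (K' + 1) ^ 2 ≤ 81 * ((S T T K).card + 1) := by
    rw [hS]
    rcases Nat.lt_or_ge K' 2 with hlt | hge
    · have : (K' + 1) ^ 2 ≤ 2 ^ 2 := Nat.pow_le_pow_left (by omega) 2
      omega
    · obtain ⟨M, hM⟩ : ∃ M : ℕ, M = K' / 2 := ⟨_, rfl⟩
      have hM1 : 1 ≤ M := by omega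
      have hM2 : 2 * M ≤ K' := by omega
      have hM3 : K' + 1 ≤ 4 * M := by omega
      have h1 := card_S_one K' M hM1 hM2
      have h2 : (M : ℝ) ^ 2 ≤ 4 * ((S 1 1 K').card : ℝ) := by linarith
      have h3 : M ^ 2 ≤ 4 * (S 1 1 K').card := by exact_mod_cast h2
      have h4 : (K' + 1) ^ 2 ≤ (4 * M) ^ 2 := Nat.pow_le_pow_left hM3 2
      have h5 : (4 * M) ^ 2 = 16 * M ^ 2 := by ring
      omega
  calc K ^ 2 ≤ (T * (K' + 1)) ^ 2 := Nat.pow_le_pow_left hK 2
    _ = T ^ 2 * (K' + 1) ^ 2 := by ring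
    _ ≤ T ^ 2 * (81 * ((S T T K).card + 1)) := Nat.mul_le_mul_left _ hD
    _ = 81 * T ^ 2 * ((S T T K).card + 1) := by ring

/-- few pairs are lost on the right -/
lemma right_loss (P R s K : ℕ) (hP : 1 ≤ P) (hR : 1 ≤ R) :
    (S P R K).card ≤ (S P (R + s) K).card + (K / R) ^ 2 * s := by
  classical
  obtain ⟨Y, hY⟩ : ∃ Y : ℕ, Y = K / R := ⟨_, rfl⟩
  rw [← hY]
  have h1 : (S P R K \ S P (R + s) K).card ≤ Y ^ 2 * s := by
    have h2 : (S P R K \ S P (R + s) K).card ≤ ((Icc 1 Y) ×ˢ (range (Y * s))).card := by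
      refine card_le_card_of_injOn (fun t => (t.2, K - (t.1 * P + t.2 * R))) ?_ ?_
      · intro t ht
        have ht' := mem_sdiff.mp (mem_coe.mp ht)
        obtain ⟨ha, hb⟩ := ht'
        rw [mem_S hP hR] at ha
        rw [mem_S hP (by omega)] at hb
        obtain ⟨a1, a2, a3, a4⟩ := ha
        have hb' : K < t.1 * P + t.2 * (R + s) := by
          by_contra hcon
          exact hb ⟨a1, a2, a3, by omega⟩
        have hyY : t.2 ≤ Y := by
          rw [hY, Nat.le_div_iff_mul_le hR]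
          exact (Nat.le_add_left _ _).trans a4
        have hys : t.2 * s ≤ Y * s := Nat.mul_le_mul_right _ hyY
        rw [mul_add] at hb'
        have hmem : ((t.2, K - (t.1 * P + t.2 * R)) : ℕ × ℕ) ∈ (Icc 1 Y) ×ˢ (range (Y * s)) := by
          rw [mem_product, mem_Icc, mem_range]
          exact ⟨⟨a2, hyY⟩, by simp only; omega⟩
        exact mem_coe.mpr hmem
      · intro t ht u hu htu
        have ha := (mem_sdiff.mp (mem_coe.mp ht)).1
        have hb := (mem_sdiff.mp (mem_coe.mp hu)).1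
        rw [mem_S hP hR] at ha hb
        obtain ⟨_, _, _, a4⟩ := ha
        obtain ⟨_, _, _, b4⟩ := hb
        simp only [Prod.mk.injEq] at htu
        obtain ⟨e1, e2⟩ := htu
        rw [e1] at e2 a4
        have e3 : t.1 * P = u.1 * P := by omega
        exact Prod.ext (Nat.eq_of_mul_eq_mul_right (by omega) e3) e1
    refine h2.trans ?_
    rw [card_product, Nat.card_Icc, card_range, Nat.add_sub_cancel]
    exact le_of_eq (by ring)
  have h3 : (S P R K).card ≤ (S P R K \ S P (R + s) K).card + (S P (R + s) K).card := by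
    refine le_trans (card_le_card ?_) (card_union_le _ _)
    intro t ht
    by_cases h : t ∈ S P (R + s) K
    · exact mem_union_right _ h
    · exact mem_union_left _ (mem_sdiff.mpr ⟨ht, h⟩)
  omega

lemma card_S_swap (P Q K : ℕ) (hP : 1 ≤ P) (hQ : 1 ≤ Q) : (S P Q K).card = (S Q P K).card := by
  classical
  refine card_bij' (fun t _ => (t.2, t.1)) (fun t _ => (t.2, t.1)) ?_ ?_ ?_ ?_
  · intro t ht
    rw [mem_S hP hQ] at ht
    rw [mem_S hQ hP]
    obtain ⟨a1, a2, a3, a4⟩ := ht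
    exact ⟨a2, a1, a3.symm, by simp only; omega⟩
  · intro t ht
    rw [mem_S hQ hP] at ht
    rw [mem_S hP hQ]
    obtain ⟨a1, a2, a3, a4⟩ := ht
    exact ⟨a2, a1, a3.symm, by simp only; omega⟩
  · intro t _
    rfl
  · intro t _
    rfl

theorem comb_main : ST_COMB := by
  intro hdiag P Q s K hP hQ
  obtain ⟨Y, hY⟩ : ∃ Y : ℕ, Y = K / (P + Q) := ⟨_, rfl⟩
  obtain ⟨D, hD⟩ : ∃ D : ℕ, D = (S (P + Q + s) (P + Q + s) K).card := ⟨_, rfl⟩
  have h1 := card_S_le P Q K hP hQ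
  have h2 := right_loss P (P + Q) s K hP (by omega)
  have h3 := right_loss Q (P + Q) s K hQ (by omega)
  rw [card_S_swap Q (P + Q) K hQ (by omega), card_S_swap Q (P + Q + s) K hQ (by omega)] at h3
  rw [← hY] at h2 h3
  have h4 := hdiag (P + Q + s) K (by omega)
  rw [← hD] at h4 ⊢
  have hYK : Y * (P + Q) ≤ K := by
    rw [hY]
    exact Nat.div_mul_le_self _ _
  have hT : P + Q + s ≤ (P + Q) * (1 + s) := by
    have : s ≤ (P + Q) * s := Nat.le_mul_of_pos_left _ (by omega)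
    rw [mul_add, mul_one]
    omega
  have h5 : (P + Q) ^ 2 * Y ^ 2 ≤ (P + Q) ^ 2 * (81 * (1 + s) ^ 2 * (D + 1)) := by
    calc (P + Q) ^ 2 * Y ^ 2 = (Y * (P + Q)) ^ 2 := by ring
      _ ≤ K ^ 2 := Nat.pow_le_pow_left hYK 2
      _ ≤ 81 * (P + Q + s) ^ 2 * (D + 1) := h4
      _ ≤ 81 * ((P + Q) * (1 + s)) ^ 2 * (D + 1) :=
          Nat.mul_le_mul_right _ (Nat.mul_le_mul_left _ (Nat.pow_le_pow_left hT 2))
      _ = (P + Q) ^ 2 * (81 * (1 + s) ^ 2 * (D + 1)) := by ring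
  have h6 : Y ^ 2 ≤ 81 * (1 + s) ^ 2 * (D + 1) :=
    Nat.le_of_mul_le_mul_left h5 (pow_pos (by omega) 2)
  have h7 : Y ^ 2 * s ≤ 81 * (1 + s) ^ 3 * (D + 1) := by
    calc Y ^ 2 * s ≤ (81 * (1 + s) ^ 2 * (D + 1)) * (1 + s) :=
          Nat.mul_le_mul h6 (by omega)
      _ = 81 * (1 + s) ^ 3 * (D + 1) := by ring
  have h8 : 162 * (1 + s) ^ 3 * (D + 1) = 81 * (1 + s) ^ 3 * (D + 1) + 81 * (1 + s) ^ 3 * (D + 1) := by
    ring
  rw [h8]
  omega

end Pool.Agent.N60.ZG
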