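import Pool.Agent.N60.ZG.Stm

set_option autoImplicit false

/-! Project ZG (helper60), leaf INC (helper75): recursions with a slowly increasing second argument of the
gcd satisfy the hypotheses `Jumps`. -/

namespace Pool.Agent.N60.ZG

open Finset Pool.Agent.R330.GL

namespace INC

/-- the arithmetic inequality for two jumps -/
theorem pair_arith (Gi Gj μ μ' x y σ V V' V0 : ℤ) (hGi : 0 ≤ Gi) (hGj : 0 < Gj)
    (hV : V = Gi * μ) (hV' : V' = Gj * μ') (hx : Gi * x = σ + Gj * y) (hμ : 0 < μ)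
    (hσ : 0 ≤ σ) (hVV : V < V') (hV0 : 0 < V) (hy : 0 < Gj * y) (hy' : Gj * y ≤ V')
    (h2 : V' ≤ 2 * V0) (hq : 4 * V0 * (V' - V) ≤ Gi * Gj) : Gi * Gj ≤ 4 * V0 * σ := by
  have hy1 : 1 ≤ y := by
    by_contra hcon
    push Not at hcon
    have h3 : y ≤ 0 := by omega
    have h4 : Gj * y ≤ 0 := mul_nonpos_of_nonneg_of_nonpos hGj.le h3
    linarith
  have hyμ : y ≤ μ' := by
    rw [hV'] at hy'
    exact le_of_mul_le_mul_left hy' hGj
  have hμ' : 0 < μ' := by linarith
  have h3 : μ * μ' * σ = V * (x * μ' - y * μ) - (V' - V) * (y * μ) := by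
    have h4 : σ = Gi * x - Gj * y := by linarith
    rw [h4, hV', hV]
    ring
  have h4 : 0 ≤ μ * μ' * σ := by positivity
  have h5 : 0 < (V' - V) * (y * μ) := mul_pos (by linarith) (mul_pos (by linarith) hμ)
  have h6 : 0 < V * (x * μ' - y * μ) := by linarith
  have h7 : 0 < x * μ' - y * μ := by
    by_contra hcon
    push Not at hcon
    have := mul_nonpos_of_nonneg_of_nonpos hV0.le hcon
    linarith
  have h8 : 1 ≤ x * μ' - y * μ := h7
  have h9 : V ≤ μ * μ' * (σ + (V' - V)) := by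
    have h10 : V * 1 ≤ V * (x * μ' - y * μ) := mul_le_mul_of_nonneg_left h8 hV0.le
    have h11 : (V' - V) * (y * μ) ≤ (V' - V) * (μ' * μ) :=
      mul_le_mul_of_nonneg_left (mul_le_mul_of_nonneg_right hyμ hμ.le) (by linarith)
    have h12 : μ * μ' * (σ + (V' - V)) = μ * μ' * σ + (V' - V) * (μ' * μ) := by ring
    linarith
  have h10 : V * (Gi * Gj) ≤ V * (V' * (σ + (V' - V))) := by
    have h11 : V * (Gi * Gj) ≤ μ * μ' * (σ + (V' - V)) * (Gi * Gj) :=
      mul_le_mul_of_nonneg_right h9 (mul_nonneg hGi hGj.le)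
    have h12 : μ * μ' * (σ + (V' - V)) * (Gi * Gj) = V * (V' * (σ + (V' - V))) := by
      rw [hV', hV]
      ring
    linarith
  have h11 : Gi * Gj ≤ V' * (σ + (V' - V)) := le_of_mul_le_mul_left h10 hV0
  have h12 : V' * (σ + (V' - V)) ≤ 2 * V0 * (σ + (V' - V)) :=
    mul_le_mul_of_nonneg_right h2 (by linarith)
  have h13 : 2 * V0 * (σ + (V' - V)) = 2 * V0 * σ + 2 * V0 * (V' - V) := by ring
  have h14 : 2 * (4 * V0 * (V' - V)) = 4 * (2 * V0 * (V' - V)) := by ring
  linarith

end INC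

theorem inc_main : ST_INC := by
  intro hmain n₀ f a V Z hnf ha0 haf hV0 hrec hinc hZ hZV
  obtain ⟨m, hm⟩ : ∃ m, f = n₀ + m := ⟨f - n₀, by omega⟩
  subst hm
  have hm0 : 0 < m := by omega
  obtain ⟨G, hG⟩ : ∃ G : ℕ → ℕ, G = fun i =>
    if i = 0 then V n₀ else Nat.gcd (a (n₀ + i - 1)) (V (n₀ + i)) := ⟨_, rfl⟩
  have hG0 : G 0 = V n₀ := by
    rw [hG]
    simp
  have hGs : ∀ i, G (i + 1) = Nat.gcd (a (n₀ + i)) (V (n₀ + (i + 1))) := by
    intro i
    rw [hG]
    have h1 : n₀ + (i + 1) - 1 = n₀ + i := by omega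
    simp [h1]
  have hstep : ∀ i, i < m → 0 < a (n₀ + i) ∧ a (n₀ + (i + 1)) + G (i + 1) = a (n₀ + i) := by
    intro i hi
    have h1 := hrec (n₀ + (i + 1)) (by omega) (by omega)
    have h2 : n₀ + (i + 1) - 1 = n₀ + i := by omega
    rw [h2] at h1
    rw [hGs]
    exact h1
  have htel : ∀ i j, i ≤ j → j ≤ m → a (n₀ + j) + ∑ k ∈ Ioc i j, G k = a (n₀ + i) := by
    intro i j hij
    induction j, hij using Nat.le_induction with
    | base =>
      intro _
      simp
    | succ j hij ih =>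
      intro hj
      have h1 := ih (by omega)
      have h2 := (hstep j (by omega)).2
      rw [sum_Ioc_succ_top hij]
      omega
  have hVm : ∀ i j, i ≤ j → j ≤ m → V (n₀ + i) ≤ V (n₀ + j) := by
    intro i j hij
    induction j, hij using Nat.le_induction with
    | base =>
      intro _
      exact le_rfl
    | succ j hij ih =>
      intro hj
      exact (ih (by omega)).trans (hinc (n₀ + j) (by omega) (by omega)).le
  have hVs : ∀ i j, i < j → j ≤ m → V (n₀ + i) < V (n₀ + j) := by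
    intro i j hij hj
    have h1 := hVm (i + 1) j hij hj
    exact lt_of_lt_of_le (hinc (n₀ + i) (by omega) (by omega)) h1
  have hVf : ∀ i, i ≤ m → V n₀ ≤ V (n₀ + i) := fun i hi => hVm 0 i (Nat.zero_le _) hi
  have hV0' : (0 : ℝ) < V n₀ := by exact_mod_cast hV0
  have hf0 : (V n₀ : ℝ) ≤ V (n₀ + m) := by exact_mod_cast hVf m le_rfl
  obtain ⟨g, hg⟩ : ∃ g : ℕ → ℝ, g = fun i => if i ≤ m then (G i : ℝ) / V n₀ else 0 := ⟨_, rfl⟩
  have hgi : ∀ i, i ≤ m → g i = (G i : ℝ) / V n₀ := by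
    intro i hi
    rw [hg]
    exact if_pos hi
  have hsum : ∀ s : Finset ℕ, (∀ k ∈ s, k ≤ m) →
      ∑ k ∈ s, g k = ((∑ k ∈ s, G k : ℕ) : ℝ) / V n₀ := by
    intro s hs
    rw [Nat.cast_sum, sum_div]
    exact sum_congr rfl fun k hk => hgi k (hs k hk)
  have hJ : Jumps m g Z := by
    refine ⟨?_, ?_, ?_, ?_⟩
    · rw [hgi 0 (Nat.zero_le _), hG0, div_self hV0'.ne']
    · intro k
      rw [hg]
      dsimp only
      split_ifs
      · positivity
      · exact le_rfl
    · intro i j hij hj hZg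
      obtain ⟨j', rfl⟩ : ∃ j', j = j' + 1 := ⟨j - 1, by omega⟩
      have hIoo : Ioo i (j' + 1) = Ioc i j' := by
        ext k
        rw [mem_Ioo, mem_Ioc]
        omega
      have hσ := htel i j' (by omega) (by omega)
      rw [hIoo, hsum _ (fun k hk => by
        have := (mem_Ioc.1 hk).2
        omega)]
      obtain ⟨σ, hσd⟩ : ∃ σ : ℕ, σ = ∑ k ∈ Ioc i j', G k := ⟨_, rfl⟩
      rw [← hσd] at hσ ⊢
      rw [hgi i (by omega), hgi _ hj] at hZg ⊢
      -- divisibility
      have hdi : G i ∣ V (n₀ + i) ∧ G i ∣ a (n₀ + i) := by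
        rcases Nat.eq_zero_or_pos i with rfl | hi
        · rw [hG0]
          refine ⟨dvd_rfl, ?_⟩
          rw [Nat.add_zero, ha0]
        · obtain ⟨i', rfl⟩ : ∃ i', i = i' + 1 := ⟨i - 1, by omega⟩
          have h1 := (hstep i' (by omega)).2
          have h2 : G (i' + 1) ∣ a (n₀ + i') := by
            rw [hGs]
            exact Nat.gcd_dvd_left _ _
          refine ⟨?_, ?_⟩
          · rw [hGs]
            exact Nat.gcd_dvd_right _ _
          · rw [← h1] at h2
            exact (Nat.dvd_add_left dvd_rfl).1 h2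
      have hdj : G (j' + 1) ∣ V (n₀ + (j' + 1)) ∧ G (j' + 1) ∣ a (n₀ + j') := by
        rw [hGs]
        exact ⟨Nat.gcd_dvd_right _ _, Nat.gcd_dvd_left _ _⟩
      obtain ⟨⟨μ, hμ⟩, ⟨x, hx⟩⟩ := hdi
      obtain ⟨⟨μ', hμ'⟩, ⟨y, hy⟩⟩ := hdj
      have hapos := (hstep j' (by omega)).1
      have hGj : 0 < G (j' + 1) := by
        rw [hGs]
        exact Nat.gcd_pos_of_pos_left _ hapos
      have hVi : 0 < V (n₀ + i) := lt_of_lt_of_le hV0 (hVf i (by omega))
      have hμ0 : 0 < μ := by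
        rcases Nat.eq_zero_or_pos μ with h | h
        · rw [h, Nat.mul_zero] at hμ
          omega
        · exact h
      have hale : a (n₀ + j') ≤ V n₀ := by
        have h1 := htel 0 j' (Nat.zero_le _) (by omega)
        rw [Nat.add_zero, ha0] at h1
        omega
      have hV' : V (n₀ + (j' + 1)) ≤ V (n₀ + m) := hVm _ _ hj le_rfl
      have h2V : V (n₀ + m) ≤ 2 * V n₀ := by
        have h1 : (V (n₀ + m) : ℝ) - V n₀ ≤ Z * ((V (n₀ + m) : ℝ) - V n₀) := by
          have := mul_le_mul_of_nonneg_right hZ (sub_nonneg.2 hf0)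
          linarith
        have h2 : (V (n₀ + m) : ℝ) ≤ 2 * V n₀ := by nlinarith
        exact_mod_cast h2
      have hq : 4 * V n₀ * ((V (n₀ + (j' + 1)) : ℝ) - V (n₀ + i)) ≤ (G i : ℝ) * G (j' + 1) := by
        have h1 : (V (n₀ + (j' + 1)) : ℝ) ≤ V (n₀ + m) := by exact_mod_cast hV'
        have h2 : (V n₀ : ℝ) ≤ V (n₀ + i) := by exact_mod_cast hVf i (by omega)
        have h3 : (V (n₀ + (j' + 1)) : ℝ) - V (n₀ + i) ≤ (V (n₀ + m) : ℝ) - V n₀ := by linarith
        obtain ⟨t, ht⟩ : ∃ t : ℝ, t = (G i : ℝ) / V n₀ * ((G (j' + 1) : ℝ) / V n₀) := ⟨_, rfl⟩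
        rw [← ht] at hZg
        have ht0 : 0 ≤ t := by
          rw [ht]
          positivity
        have h4 : (G i : ℝ) * G (j' + 1) = t * (V n₀ * V n₀) := by
          rw [ht]
          field_simp
        rw [h4]
        have h5 : 4 * Z * ((V (n₀ + m) : ℝ) - V n₀) * t ≤ V n₀ * t :=
          mul_le_mul_of_nonneg_right hZV ht0
        have h6 : (4 * ((V (n₀ + m) : ℝ) - V n₀)) * 1 ≤
            (4 * ((V (n₀ + m) : ℝ) - V n₀)) * (Z * t) :=
          mul_le_mul_of_nonneg_left hZg (by linarith)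
        have h7 : 4 * ((V (n₀ + m) : ℝ) - V n₀) ≤ V n₀ * t := by
          have : (4 * ((V (n₀ + m) : ℝ) - V n₀)) * (Z * t) =
            4 * Z * ((V (n₀ + m) : ℝ) - V n₀) * t := by ring
          linarith
        calc 4 * V n₀ * ((V (n₀ + (j' + 1)) : ℝ) - V (n₀ + i)) ≤
            V n₀ * (4 * ((V (n₀ + m) : ℝ) - V n₀)) := by nlinarith
          _ ≤ V n₀ * (V n₀ * t) := mul_le_mul_of_nonneg_left h7 hV0'.le
          _ = t * (V n₀ * V n₀) := by ring
      have key := INC.pair_arith (G i) (G (j' + 1)) μ μ' x y σ (V (n₀ + i)) (V (n₀ + (j' + 1)))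
        (V n₀) (by positivity) (by exact_mod_cast hGj) (by exact_mod_cast hμ)
        (by exact_mod_cast hμ') (by
          have h1 : G i * x = σ + G (j' + 1) * y := by
            rw [← hx, ← hy]
            omega
          exact_mod_cast h1) (by exact_mod_cast hμ0) (by positivity)
        (by exact_mod_cast hVs i (j' + 1) hij hj) (by exact_mod_cast hVi)
        (by
          rw [hy] at hapos
          exact_mod_cast hapos)
        (by
          have h1 : G (j' + 1) * y ≤ V (n₀ + (j' + 1)) := by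
            rw [← hy]
            exact hale.trans (hVf _ hj)
          exact_mod_cast h1)
        (by
          have h1 := hV'.trans h2V
          exact_mod_cast h1)
        (by exact_mod_cast hq)
      have key' : (G i : ℝ) * G (j' + 1) ≤ 4 * V n₀ * σ := by exact_mod_cast key
      have h1 : (G i : ℝ) / V n₀ * ((G (j' + 1) : ℝ) / V n₀) =
          ((G i : ℝ) * G (j' + 1)) / (V n₀ * V n₀) := by
        field_simp
      have h2 : 8 * ((σ : ℝ) / V n₀) = (8 * V n₀ * σ) / (V n₀ * V n₀) := by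
        field_simp
      rw [h1, h2]
      have h3 : (0 : ℝ) ≤ V n₀ * σ := by positivity
      exact div_le_div_of_nonneg_right (by linarith) (by positivity)
    · rw [hsum _ (fun k hk => (mem_Ioc.1 hk).2)]
      have h1 := htel 0 m (Nat.zero_le _) le_rfl
      rw [haf, Nat.add_zero, ha0, Nat.zero_add] at h1
      rw [h1, div_self hV0'.ne']
      norm_num
  have h1 := hmain m g Z hJ hZ
  have h2 : (((n₀ + m : ℕ) : ℝ) - n₀) = m := by
    push_cast
    ring
  rw [h2]
  exact h1

end Pool.Agent.N60.ZG
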