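import Pool.Agent.N60.ZG.Stm

set_option autoImplicit false

/-! Project ZG (helper60), leaf IND: the induction with chains. -/

namespace Pool.Agent.N60.ZG

open Finset Pool.Agent.R330.GL

theorem ind_main : ST_IND := by
  classical
  intro hcomb hdiag hpig m g Z hJ K hKZ
  have comb := hcomb hdiag
  have key : ∀ r P Q : ℕ, K < P + Q + r → 1 ≤ P → 1 ≤ Q → ∀ i j : ℕ, i < j → j ≤ m →
      2 ^ 16 ≤ g i * (2 ^ 32) ^ P → 2 ^ 16 ≤ g j * (2 ^ 32) ^ Q →
      (S P Q K).card + 1 ≤ j - i := by
    intro r
    induction r with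
    | zero =>
      intro P Q hK hP hQ i j hij _ _ _
      rw [S_empty P Q K hP hQ (by omega)]
      omega
    | succ r ih =>
      intro P Q hK hP hQ i j hij hjm h1 h2
      rcases Nat.lt_or_ge K (P + Q) with hlt | hge
      · rw [S_empty P Q K hP hQ hlt]
        omega
      have hgi := hJ.nn i
      have hgj := hJ.nn j
      have hgg : 0 ≤ g i * g j := mul_nonneg hgi hgj
      have hprod : (2 : ℝ) ^ 32 ≤ (g i * g j) * (2 ^ 32) ^ (P + Q) := by
        calc (2 : ℝ) ^ 32 = 2 ^ 16 * 2 ^ 16 := by norm_num
          _ ≤ (g i * (2 ^ 32) ^ P) * (g j * (2 ^ 32) ^ Q) :=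
            mul_le_mul h1 h2 (by positivity) (by positivity)
          _ = (g i * g j) * (2 ^ 32) ^ (P + Q) := by rw [pow_add]; ring
      have hbZ : ((2 : ℝ) ^ 32) ^ (P + Q) ≤ Z :=
        (pow_le_pow_right₀ (by norm_num) hge).trans hKZ
      have hZ : 1 ≤ Z * (g i * g j) := by
        have h3 : (g i * g j) * (2 ^ 32) ^ (P + Q) ≤ (g i * g j) * Z :=
          mul_le_mul_of_nonneg_left hbZ hgg
        have h4 : (2 : ℝ) ^ 32 ≤ (g i * g j) * Z := hprod.trans h3
        have h5 : (1 : ℝ) ≤ 2 ^ 32 := by norm_num
        linarith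
      have hpair := hJ.pair i j hij hjm hZ
      set R : ℝ := (2 ^ 32) ^ (P + Q) with hR
      have hR0 : 0 < R := by positivity
      have hsum : (2 : ℝ) ^ 29 ≤ (∑ k ∈ Ioo i j, g k) * R := by
        have h3 : (g i * g j) * R ≤ (8 * ∑ k ∈ Ioo i j, g k) * R :=
          mul_le_mul_of_nonneg_right hpair hR0.le
        have h4 : (2 : ℝ) ^ 32 ≤ 8 * ((∑ k ∈ Ioo i j, g k) * R) := by
          calc (2 : ℝ) ^ 32 ≤ _ := hprod.trans h3
            _ = _ := by ring
        have h5 : (2 : ℝ) ^ 32 = 8 * 2 ^ 29 := by norm_num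
        linarith
      by_cases hA : ∃ k ∈ Ioo i j, 2 ^ 16 ≤ g k * (2 ^ 32) ^ (P + Q)
      · obtain ⟨k, hk, hkR⟩ := hA
        rw [mem_Ioo] at hk
        have i1 := ih P (P + Q) (by omega) hP (by omega) i k hk.1 (by omega) h1 hkR
        have i2 := ih (P + Q) Q (by omega) (by omega) hQ k j hk.2 hjm hkR h2
        have i3 := card_S_le P Q K hP hQ
        omega
      · push Not at hA
        have hex : ∃ s : ℕ, 1 ≤ s ∧ 162 * (2 + s) ^ 3 <
            ((Ioo i j).filter (fun k => 2 ^ 16 ≤ g k * (R * (2 ^ 32) ^ s))).card := by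
          by_contra hcon
          push Not at hcon
          have h3 := hpig (Ioo i j) g R hR0 (fun k _ => hJ.nn k) (fun k hk => hA k hk) hcon
          have h4 : (2 : ℝ) ^ 16 * 4536 < 2 ^ 29 := by norm_num
          linarith
        obtain ⟨s, hs1, hs⟩ := hex
        set E := (Ioo i j).filter (fun k => 2 ^ 16 ≤ g k * (R * (2 ^ 32) ^ s)) with hE
        set T := P + Q + s with hT
        have hRT : R * (2 ^ 32) ^ s = ((2 : ℝ) ^ 32) ^ T := by rw [hR, hT, ← pow_add]
        have hgood : ∀ k ∈ E, i < k ∧ k < j ∧ 2 ^ 16 ≤ g k * (2 ^ 32) ^ T := by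
          intro k hk
          rw [hE, mem_filter, mem_Ioo] at hk
          refine ⟨hk.1.1, hk.1.2, ?_⟩
          rw [← hRT]
          exact hk.2
        -- chains
        have chain : ∀ F : Finset ℕ, (∀ k ∈ F, i < k ∧ k < j ∧ 2 ^ 16 ≤ g k * (2 ^ 32) ^ T) →
            ∀ a : ℕ, (∀ x ∈ F, x < a) → i < a → a < j → 2 ^ 16 ≤ g a * (2 ^ 32) ^ T →
              (1 + (S P T K).card) + F.card * (1 + (S T T K).card) ≤ a - i := by
          intro F
          induction F using Finset.induction_on_max with
          | empty =>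
            intro _ a _ hia haj ha
            have := ih P T (by omega) hP (by omega) i a hia (by omega) h1 ha
            simp only [card_empty, zero_mul, add_zero]
            omega
          | insert e F he ihF =>
            intro hF a hxa hia haj ha
            have heg := hF e (mem_insert_self e F)
            have hea := hxa e (mem_insert_self e F)
            have h3 := ihF (fun k hk => hF k (mem_insert_of_mem hk)) e he heg.1 heg.2.1 heg.2.2
            have h4 := ih T T (by omega) (by omega) (by omega) e a hea (by omega) heg.2.2 ha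
            have hne : e ∉ F := fun h => lt_irrefl _ (he e h)
            rw [card_insert_of_notMem hne, add_mul, one_mul]
            omega
        have hEne : E.Nonempty := by
          rw [← card_pos]
          omega
        have hmax := E.max'_mem hEne
        set a := E.max' hEne with ha
        obtain ⟨ha1, ha2, ha3⟩ := hgood a hmax
        have c1 := chain (E.erase a) (fun k hk => hgood k (mem_of_mem_erase hk)) a
          (fun x hx => lt_of_le_of_ne (E.le_max' x (mem_of_mem_erase hx)) (ne_of_mem_erase hx))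
          ha1 ha2 ha3
        rw [card_erase_of_mem hmax] at c1
        have c2 := ih T Q (by omega) (by omega) hQ a j ha2 hjm ha3 h2
        have c3 := comb P Q s K hP hQ
        rw [← hT] at c3
        have c4 : 162 * (1 + s) ^ 3 ≤ E.card - 1 := by
          have h3 : (1 + s) ^ 3 ≤ (2 + s) ^ 3 := Nat.pow_le_pow_left (by omega) 3
          omega
        have c5 : 162 * (1 + s) ^ 3 * ((S T T K).card + 1) ≤
            (E.card - 1) * (1 + (S T T K).card) := by
          rw [add_comm (S T T K).card 1]
          exact Nat.mul_le_mul_right _ c4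
        omega
  intro P Q hP hQ i j hij hjm h1 h2
  exact key (K + 1) P Q (by omega) hP hQ i j hij hjm h1 h2

end Pool.Agent.N60.ZG
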