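import Pool.Agent.N60.ZG.Stm

set_option autoImplicit false

/-! Project ZG, leaf PIG: dyadic pigeonhole for a sum of jumps (helper492). -/

namespace Pool.Agent.N60.ZG

open Finset Pool.Agent.R330.GL

namespace PIG

theorem cube_le (s : ℕ) : (2 + ((s + 1 : ℕ) : ℝ)) ^ 3 ≤ 27 * 4 ^ s := by
  induction s with
  | zero => norm_num
  | succ n ih =>
    have h0 : (0 : ℝ) ≤ n := n.cast_nonneg
    push_cast at ih ⊢
    rw [pow_succ (4 : ℝ) n]
    nlinarith [pow_nonneg h0 2, pow_nonneg h0 3]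

theorem one_term {x b : ℝ} (hb : 1 < b) (hx : 0 ≤ x) (h : x < 2 ^ 16) : ∃ S : ℕ, ∀ S', S ≤ S' →
    x ≤ ∑ s ∈ range S', if 2 ^ 16 ≤ x * b ^ (s + 1) then 2 ^ 16 / b ^ s else 0 := by
  classical
  have hb0 : 0 < b := by linarith
  have hnn : ∀ s : ℕ, 0 ≤ (if 2 ^ 16 ≤ x * b ^ (s + 1) then 2 ^ 16 / b ^ s else 0 : ℝ) := by
    intro s
    split_ifs
    · positivity
    · exact le_refl _
  rcases eq_or_lt_of_le hx with h0 | h0
  · refine ⟨0, fun S' _ => ?_⟩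
    rw [← h0]
    refine Finset.sum_nonneg fun s _ => ?_
    have := hnn s
    rw [← h0] at this
    exact this
  · have hex : ∃ s : ℕ, 2 ^ 16 ≤ x * b ^ (s + 1) := by
      obtain ⟨n, hn⟩ := pow_unbounded_of_one_lt (2 ^ 16 / x) hb
      refine ⟨n, ?_⟩
      rw [div_lt_iff₀ h0] at hn
      have h1 : b ^ n ≤ b ^ (n + 1) := pow_le_pow_right₀ hb.le (Nat.le_succ n)
      nlinarith
    have hlt : x < 2 ^ 16 / b ^ Nat.find hex := by
      rcases Nat.eq_zero_or_pos (Nat.find hex) with h2 | h2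
      · rw [h2, pow_zero, div_one]
        exact h
      · obtain ⟨u, hu⟩ := Nat.exists_eq_succ_of_ne_zero h2.ne'
        have h3 := Nat.find_min hex (m := u) (by omega)
        rw [not_le] at h3
        rw [hu, lt_div_iff₀ (pow_pos hb0 _)]
        exact h3
    refine ⟨Nat.find hex + 1, fun S' hS' => ?_⟩
    refine le_trans ?_ (Finset.single_le_sum (fun s _ => hnn s)
      (Finset.mem_range.2 (show Nat.find hex < S' by omega)))
    rw [if_pos (Nat.find_spec hex)]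
    exact hlt.le

end PIG

open PIG in
theorem pig_main : ST_PIG := by
  classical
  intro I g R hR hg hlt hcard
  have h1 : ∀ k ∈ I, ∃ S : ℕ, ∀ S', S ≤ S' → g k * R ≤ ∑ s ∈ range S',
      if 2 ^ 16 ≤ g k * R * (2 ^ 32) ^ (s + 1) then 2 ^ 16 / (2 ^ 32) ^ s else (0 : ℝ) :=
    fun k hk => one_term (b := 2 ^ 32) (by norm_num) (mul_nonneg (hg k hk) hR.le) (hlt k hk)
  choose! S hS using h1
  set N := I.sup S with hN
  have h2 : ∀ k ∈ I, g k * R ≤ ∑ s ∈ range N,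
      if 2 ^ 16 ≤ g k * R * (2 ^ 32) ^ (s + 1) then 2 ^ 16 / (2 ^ 32) ^ s else (0 : ℝ) :=
    fun k hk => hS k hk N (Finset.le_sup hk)
  rw [Finset.sum_mul]
  refine (Finset.sum_le_sum h2).trans ?_
  rw [Finset.sum_comm]
  have h3 : ∀ s ∈ range N, (∑ k ∈ I,
      if 2 ^ 16 ≤ g k * R * (2 ^ 32) ^ (s + 1) then 2 ^ 16 / (2 ^ 32) ^ s else (0 : ℝ)) ≤
      2 ^ 16 * 162 * 27 * (4 / 2 ^ 32) ^ s := by
    intro s _
    rw [← Finset.sum_filter, Finset.sum_const, nsmul_eq_mul]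
    have h4 := hcard (s + 1) (by omega)
    have h5 : (I.filter fun k => 2 ^ 16 ≤ g k * (R * (2 ^ 32) ^ (s + 1))) =
        I.filter fun k => 2 ^ 16 ≤ g k * R * (2 ^ 32) ^ (s + 1) := by
      refine Finset.filter_congr fun k _ => ?_
      rw [mul_assoc]
    rw [h5] at h4
    have h6 : ((I.filter fun k => 2 ^ 16 ≤ g k * R * (2 ^ 32) ^ (s + 1)).card : ℝ) ≤
        162 * (2 + ((s + 1 : ℕ) : ℝ)) ^ 3 := by
      exact_mod_cast h4
    have h7 := cube_le s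
    have h8 : (0 : ℝ) ≤ 2 ^ 16 / (2 ^ 32) ^ s := by positivity
    calc ((I.filter fun k => 2 ^ 16 ≤ g k * R * (2 ^ 32) ^ (s + 1)).card : ℝ) *
          (2 ^ 16 / (2 ^ 32) ^ s) ≤ (162 * (27 * 4 ^ s)) * (2 ^ 16 / (2 ^ 32) ^ s) := by
          refine mul_le_mul_of_nonneg_right (h6.trans ?_) h8
          exact mul_le_mul_of_nonneg_left h7 (by norm_num)
      _ = 2 ^ 16 * 162 * 27 * (4 / 2 ^ 32) ^ s := by
          rw [div_pow]
          ring
  refine (Finset.sum_le_sum h3).trans ?_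
  rw [← Finset.mul_sum]
  have h4 := mul_neg_geom_sum (4 / 2 ^ 32 : ℝ) N
  have h5 : (0 : ℝ) ≤ (4 / 2 ^ 32) ^ N := by positivity
  have h6 : (0 : ℝ) ≤ ∑ i ∈ range N, (4 / 2 ^ 32 : ℝ) ^ i :=
    Finset.sum_nonneg fun i _ => by positivity
  generalize (∑ i ∈ range N, (4 / 2 ^ 32 : ℝ) ^ i) = σ at h4 h6 ⊢
  generalize ((4 / 2 ^ 32 : ℝ) ^ N) = τ at h4 h5
  norm_num at h4 ⊢
  linarith

end Pool.Agent.N60.ZG
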