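import Pool.Agent.R330.GL.Top

set_option autoImplicit false

/-! Project ZG (helper60): at least `c (log Z)^2` steps between large jumps; statements of the leaves.
`S P Q K` (from `Pool.Agent.R330.GL`) is the set of the coprime pairs `x, y ≥ 1` with `x P + y Q ≤ K`. -/

namespace Pool.Agent.N60.ZG

open Finset Pool.Agent.R330.GL

/-- leaf ZG/DIAG -/
def ST_DIAG : Prop := ∀ T K : ℕ, 1 ≤ T → K ^ 2 ≤ 81 * T ^ 2 * ((S T T K).card + 1)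

/-- leaf ZG/COMB -/
def ST_COMB : Prop := ST_DIAG → ∀ P Q s K : ℕ, 1 ≤ P → 1 ≤ Q →
  (S P Q K).card ≤ 1 + (S P (P + Q + s) K).card + (S (P + Q + s) Q K).card +
    162 * (1 + s) ^ 3 * ((S (P + Q + s) (P + Q + s) K).card + 1)

/-- leaf ZG/PIG -/
def ST_PIG : Prop := ∀ (I : Finset ℕ) (g : ℕ → ℝ) (R : ℝ), 0 < R → (∀ k ∈ I, 0 ≤ g k) →
  (∀ k ∈ I, g k * R < 2 ^ 16) →
  (∀ s : ℕ, 1 ≤ s → (I.filter (fun k => 2 ^ 16 ≤ g k * (R * (2 ^ 32) ^ s))).card ≤ 162 * (2 + s) ^ 3) →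
  (∑ k ∈ I, g k) * R ≤ 2 ^ 16 * 4536

/-- the hypotheses on the (normalised) jumps `g k`, `1 ≤ k ≤ m`; `g 0 = 1` stands for the start -/
structure Jumps (m : ℕ) (g : ℕ → ℝ) (Z : ℝ) : Prop where
  start : g 0 = 1
  nn : ∀ k, 0 ≤ g k
  pair : ∀ i j : ℕ, i < j → j ≤ m → 1 ≤ Z * (g i * g j) → g i * g j ≤ 8 * ∑ k ∈ Ioo i j, g k
  total : 1 ≤ 8 * ∑ k ∈ Ioc 0 m, g k

/-- leaf ZG/IND -/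
def ST_IND : Prop := ST_COMB → ST_DIAG → ST_PIG → ∀ (m : ℕ) (g : ℕ → ℝ) (Z : ℝ), Jumps m g Z → ∀ K : ℕ, (2 ^ 32 : ℝ) ^ K ≤ Z →
  ∀ P Q : ℕ, 1 ≤ P → 1 ≤ Q → ∀ i j : ℕ, i < j → j ≤ m → 2 ^ 16 ≤ g i * (2 ^ 32) ^ P → 2 ^ 16 ≤ g j * (2 ^ 32) ^ Q →
    (S P Q K).card + 1 ≤ j - i

/-- leaf ZG/TOP -/
def ST_TOP : Prop := ST_DIAG → ST_PIG → ST_IND → ∀ (m : ℕ) (g : ℕ → ℝ) (Z : ℝ), Jumps m g Z → ∀ K : ℕ, (2 ^ 32 : ℝ) ^ K ≤ Z →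
  K ^ 2 ≤ 81 * m

/-- the main inequality (for the applications) -/
def ST_MAIN : Prop := ∀ (m : ℕ) (g : ℕ → ℝ) (Z : ℝ), Jumps m g Z → 1 ≤ Z → (Real.log Z) ^ 2 ≤ 10 ^ 6 * m

/-- leaf ZG/INC: recursions with a slowly increasing second argument of the gcd -/
def ST_INC : Prop := ST_MAIN → ∀ (n₀ f : ℕ) (a V : ℕ → ℕ) (Z : ℝ), n₀ < f → a n₀ = V n₀ → a f = 0 → 0 < V n₀ →
  (∀ n, n₀ < n → n ≤ f → 0 < a (n - 1) ∧ a n + Nat.gcd (a (n - 1)) (V n) = a (n - 1)) →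
  (∀ n, n₀ ≤ n → n < f → V n < V (n + 1)) →
  1 ≤ Z → 4 * Z * ((V f : ℝ) - V n₀) ≤ V n₀ → (Real.log Z) ^ 2 ≤ 10 ^ 6 * ((f : ℝ) - n₀)

/-- leaf ZG/APPM: MP_9227d9_nt -/
def ST_APPM : Prop := ∃ c : ℝ, 0 < c ∧ ∀ m : ℕ, 1 ≤ m → ∀ a : ℕ → ℤ, a 1 = 4 * (m : ℤ) ^ 2 →
      (∀ n : ℕ, 2 ≤ n →
        a n = |a (n - 1) - ((Int.gcd (a (n - 1)) ((n : ℤ) * ((n : ℤ) + 2 * (m : ℤ)))) : ℤ)|) →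
      ∀ n n' : ℕ, 1 ≤ n → n < n' → a n = 0 → a n' = 0 → c * (Real.log n) ^ 2 ≤ (n' : ℝ) - n

/-- leaf ZG/APPP: MP_e7655a_nt -/
def ST_APPP : Prop := ∃ c : ℝ, 0 < c ∧ ∀ p : ℕ, p.Prime → ∀ a : ℕ → ℤ, a 1 = 1 →
      (∀ n : ℕ, 2 ≤ n →
        a n = |a (n - 1) - ((Int.gcd (a (n - 1)) ((n : ℤ) ^ p - 1) : ℕ) : ℤ)|) →
      ∀ n n' : ℕ, 1 ≤ n → n < n' → a n = 0 → a n' = 0 → p ≤ n → c * (Real.log (n / p)) ^ 2 ≤ (n' : ℝ) - n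

/-- leaf ZG/APPG: MP_b5e119_nt -/
def ST_APPG : Prop := ∃ c : ℝ, 0 < c ∧ ∀ N : ℕ, 3 ≤ N → ∀ a : ℕ → ℤ, a 1 = (N : ℤ) - 2 →
    (∀ n : ℕ, 2 ≤ n → a n = a (n - 1) -
        ((Int.gcd (a (n - 1)) ((N : ℤ) - (-1) ^ n * ((N : ℤ) - n)) : ℕ) : ℤ)) →
    ∀ g : ℕ, IsLeast {n : ℕ | 2 ≤ n ∧ a n = 0} g → c * (Real.log N) ^ 2 ≤ (g : ℝ)

end Pool.Agent.N60.ZG
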