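import Pool.Agent.N60.ZG.Stm

set_option autoImplicit false

/-! Project ZG (helper60): the main inequality from the leaves. -/

namespace Pool.Agent.N60.ZG

open Finset Pool.Agent.R330.GL

lemma chain (p : ℕ → Prop) (d : ℕ) (hd : ∀ i j, p i → p j → i < j → d ≤ j - i) (a : ℕ) :
    ∀ (n : ℕ) (E : Finset ℕ) (b : ℕ), E.card = n + 1 → (∀ k ∈ E, p k ∧ a ≤ k ∧ k ≤ b) → n * d ≤ b - a := by
  intro n
  induction n with
  | zero => intro E b _ _; simp
  | succ n ih =>
    intro E b hc hE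
    have hne : E.Nonempty := by
      rw [← Finset.card_pos]
      omega
    set M := E.max' hne with hM
    have hMm : M ∈ E := E.max'_mem hne
    have hc' : (E.erase M).card = n + 1 := by
      rw [Finset.card_erase_of_mem hMm]
      omega
    have hne' : (E.erase M).Nonempty := by
      rw [← Finset.card_pos]
      omega
    set M' := (E.erase M).max' hne' with hM'
    have hMm' : M' ∈ E.erase M := (E.erase M).max'_mem hne'
    have hM'E : M' ∈ E := Finset.mem_of_mem_erase hMm'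
    have hlt : M' < M := lt_of_le_of_ne (E.le_max' _ hM'E) (Finset.ne_of_mem_erase hMm')
    have h1 := ih (E.erase M) M' hc' (by
      intro k hk
      have hkE := hE k (Finset.mem_of_mem_erase hk)
      exact ⟨hkE.1, hkE.2.1, (E.erase M).le_max' _ hk⟩)
    have h2 := hd M' M (hE _ hM'E).1 (hE _ hMm).1 hlt
    have h3 := (hE _ hMm).2.2
    have h4 := (hE _ hM'E).2.1
    have h5 : (n + 1) * d = n * d + d := by ring
    omega

theorem top (hD : ST_DIAG) (hC : ST_COMB) (hP : ST_PIG) (hI : ST_IND) :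
    ∀ (m : ℕ) (g : ℕ → ℝ) (Z : ℝ), Jumps m g Z → ∀ K : ℕ, (2 ^ 32 : ℝ) ^ K ≤ Z → K ^ 2 ≤ 81 * m := by
  classical
  intro m g Z h K hK
  by_cases h1 : ∃ k ∈ Ioc 0 m, (2 : ℝ) ^ 16 ≤ g k * 2 ^ 32
  · obtain ⟨k, hk, hk2⟩ := h1
    rw [mem_Ioc] at hk
    have h2 := hI hC hD hP m g Z h K hK 1 1 le_rfl le_rfl 0 k hk.1 hk.2 (by rw [h.start]; norm_num)
      (by simpa using hk2)
    have h3 := hD 1 K le_rfl
    omega
  · push Not at h1
    by_contra hcon
    push Not at hcon
    have key : ∀ s : ℕ, 1 ≤ s →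
        ((Ioc 0 m).filter (fun k => (2 : ℝ) ^ 16 ≤ g k * (2 ^ 32 * (2 ^ 32) ^ s))).card ≤ 162 * (2 + s) ^ 3 := by
      intro s hs
      by_contra hc
      push Not at hc
      set E := (Ioc 0 m).filter (fun k => (2 : ℝ) ^ 16 ≤ g k * (2 ^ 32 * (2 ^ 32) ^ s)) with hE
      obtain ⟨n, hn⟩ : ∃ n, E.card = n + 1 := ⟨E.card - 1, by omega⟩
      have h2 := chain (fun k => k ≤ m ∧ (2 : ℝ) ^ 16 ≤ g k * (2 ^ 32) ^ (1 + s))
        ((S (1 + s) (1 + s) K).card + 1) (by
          intro i j hi hj hij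
          exact hI hC hD hP m g Z h K hK (1 + s) (1 + s) (by omega) (by omega) i j hij hj.1 hi.2 hj.2)
        0 n E m hn (by
          intro k hk
          rw [hE, mem_filter, mem_Ioc] at hk
          refine ⟨⟨hk.1.2, ?_⟩, Nat.zero_le _, hk.1.2⟩
          rw [pow_add, pow_one]
          exact hk.2)
      have h3 := hD (1 + s) K (by omega)
      have h4 : 162 * (2 + s) ^ 3 ≤ n := by omega
      have h5 : (1 + s) ^ 2 ≤ n := by
        refine le_trans ?_ h4
        have : 1 ≤ (2 + s) := by omega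
        nlinarith [Nat.pow_le_pow_left (show 1 + s ≤ 2 + s by omega) 2]
      have h6 : (1 + s) ^ 2 * ((S (1 + s) (1 + s) K).card + 1) ≤ m := by
        refine (Nat.mul_le_mul_right _ h5).trans ?_
        simpa using h2
      have h7 : 81 * (1 + s) ^ 2 * ((S (1 + s) (1 + s) K).card + 1) =
        81 * ((1 + s) ^ 2 * ((S (1 + s) (1 + s) K).card + 1)) := by ring
      omega
    have h2 := hP (Ioc 0 m) g (2 ^ 32) (by positivity) (fun k _ => h.nn k) h1 key
    have h3 := h.total
    norm_num at h2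
    linarith

theorem main' (hD : ST_DIAG) (hC : ST_COMB) (hP : ST_PIG) (hI : ST_IND) : ST_MAIN := by
  intro m g Z h hZ
  have hl2 := Real.log_two_gt_d9
  have hl2' := Real.log_two_lt_d9
  have hlog : 0 ≤ Real.log Z := Real.log_nonneg hZ
  have hZ0 : 0 < Z := by linarith
  set K := ⌊Real.log Z / (32 * Real.log 2)⌋₊ with hK
  have hK1 : (K : ℝ) ≤ Real.log Z / (32 * Real.log 2) := Nat.floor_le (by positivity)
  have hK2 : Real.log Z / (32 * Real.log 2) < K + 1 := Nat.lt_floor_add_one _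
  rw [le_div_iff₀ (by positivity)] at hK1
  rw [div_lt_iff₀ (by positivity)] at hK2
  have hpow : (2 ^ 32 : ℝ) ^ K ≤ Z := by
    rw [← Real.log_le_log_iff (by positivity) hZ0, Real.log_pow, Real.log_pow]
    push_cast
    linarith
  have h1 := top hD hC hP hI m g Z h K hpow
  have hm : 1 ≤ m := by
    by_contra hm
    have : m = 0 := by omega
    have h2 := h.total
    rw [this, Ioc_self, sum_empty] at h2
    norm_num at h2
  have hmr : (1 : ℝ) ≤ m := by exact_mod_cast hm
  have h1r : (K : ℝ) ^ 2 ≤ 81 * m := by exact_mod_cast h1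
  have hKn : (0 : ℝ) ≤ K := Nat.cast_nonneg _
  have h3 : Real.log Z ≤ 23 * (K + 1) := by nlinarith
  have h4 : (Real.log Z) ^ 2 ≤ (23 * ((K : ℝ) + 1)) ^ 2 := by gcongr
  nlinarith [sq_nonneg ((K : ℝ) - 1)]

end Pool.Agent.N60.ZG
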